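import Pool.Agent.U873.EntI

/-!
A real-analytic diffeomorphism of the two-sphere for which no invariant probability measure
satisfies the equality `h(ρ) = ∫ χ₊ dρ`; in fact `h(ρ) - ∫ χ₊ dρ ≤ -c` for a fixed `c > 0` and all
invariant `ρ`.
-/

open MeasureTheory Filter Topology Manifold Metric Function
open scoped ContDiff RealInnerProductSpace
open Pool.Agent.U873.EntExp

namespace Pool.Agent.Results.MP_794bd6_an.NoEqualityMeasure

lemma integrable_of_ae_Z (ρ : Measure S2) [IsFiniteMeasure ρ] (hZ : ∀ᵐ p ∂ρ, p ∈ Z)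
    (χ : S2 → ℝ) : Integrable χ ρ := by
  classical
  set χ' : S2 → ℝ := fun p => ∑ z ∈ Z_finite.toFinset,
    Set.indicator {z} (fun _ => χ z) p with hχ'
  have h1 : Integrable χ' ρ := by
    apply integrable_finsetSum
    intro z _
    exact (integrable_const _).indicator (measurableSet_singleton z)
  refine h1.congr ?_
  filter_upwards [hZ] with p hp
  rw [hχ']
  simp only
  rw [Finset.sum_eq_single p]
  · simp
  · intro z _ hz
    rw [Set.indicator_of_notMem]
    simpa using fun h => hz h.symm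
  · intro h
    exact absurd (Z_finite.mem_toFinset.2 hp) h

theorem result :
    ∃ f : Diffeomorph (𝓡 2) (𝓡 2) (sphere (0 : EuclideanSpace ℝ (Fin 3)) 1)
      (sphere (0 : EuclideanSpace ℝ (Fin 3)) 1) ω, ∃ c : ℝ, 0 < c ∧ NoEquality f c := by
  refine ⟨fD, Real.log rr, log_rr_pos, ?_⟩
  intro g ρ hρ hf
  have hf' : MeasurePreserving f0 ρ ρ := hf
  have hZ := ae_mem_Z ρ hf'
  refine ⟨?_, ?_⟩
  · filter_upwards [hZ] with x hx
    exact exists_chi_Z g hx
  · intro χ hχ
    have hint := integrable_of_ae_Z ρ hZ χ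
    have h0 : ksEntropy f0 ρ = 0 := by
      apply ksEntropy_of_fixed
      filter_upwards [hZ] with x hx
      exact f0_of_mem_Z hx
    have h1 : Real.log rr ≤ ∫ x, χ x ∂ρ := by
      have h2 : ∫ _x : S2, Real.log rr ∂ρ ≤ ∫ x, χ x ∂ρ := by
        apply integral_mono_ae (integrable_const _) hint
        filter_upwards [hZ, hχ] with x hx hx2
        exact chi_ge_Z g hx hx2
      simpa using h2
    have h3 : ksEntropy (fD : S2 → S2) ρ = 0 := h0
    have hpos := log_rr_pos
    refine ⟨hint, ?_, ?_⟩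
    · rw [h3]
      have : (0 : ℝ) ≤ ∫ x, χ x ∂ρ - Real.log rr := by linarith
      exact_mod_cast this
    · rw [h3]
      have : (0 : ℝ) < ∫ x, χ x ∂ρ := by linarith
      exact_mod_cast this

end Pool.Agent.Results.MP_794bd6_an.NoEqualityMeasure
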